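import Mathlib
import Pool.Agent.Helper805.CHS.Drawn

/-!
# Monotone images of plane continua and the complete graph on five vertices

`G5` is the complete graph on five vertices, realised as the 1-skeleton of the standard simplex of
dimension four. It is not the image of a plane compactum under a continuous map with connected
fibres: the preimages of disjoint edges would be disjoint plane continua, in contradiction with the
van Kampen obstruction (`Pool.Agent.Helper805.CHS.VK.k5_joined`).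
-/

set_option autoImplicit false

open Set Topology Filter

namespace Pool.Agent.H31DO

/-- At most two coordinates are nonzero, and the point lies in the standard simplex. -/
def InG (x : Fin 5 → ℝ) : Prop :=
  (∀ i, 0 ≤ x i) ∧ ∑ i, x i = 1 ∧ ∃ a b : Fin 5, ∀ c, c ≠ a → c ≠ b → x c = 0

/-- the complete graph on five vertices -/
def G5 : Type := {x : Fin 5 → ℝ // InG x}

instance : TopologicalSpace G5 := inferInstanceAs (TopologicalSpace {x : Fin 5 → ℝ // InG x})

instance : TopologicalSpace.MetrizableSpace G5 :=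
  inferInstanceAs (TopologicalSpace.MetrizableSpace {x : Fin 5 → ℝ // InG x})

theorem continuous_coord (c : Fin 5) : Continuous (fun y : G5 => y.1 c) :=
  (continuous_apply c).comp continuous_subtype_val

/-- the point with parameter `t` of the edge from `a` to `b` -/
def raw (a b : Fin 5) (t : ℝ) : Fin 5 → ℝ :=
  fun c => (1 - t) * (if c = a then 1 else 0) + t * (if c = b then 1 else 0)

theorem inG_raw (a b : Fin 5) (t : unitInterval) : InG (raw a b t) := by
  have h0 := t.2.1
  have h1 := t.2.2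
  refine ⟨fun i => ?_, ?_, a, b, fun c hc hc' => ?_⟩
  · unfold raw
    have : 0 ≤ 1 - (t : ℝ) := by linarith
    split_ifs <;> nlinarith
  · simp [raw, Finset.sum_add_distrib]
  · simp [raw, hc, hc']

/-- the parametrisation of the graph -/
def q (p : (Fin 5 × Fin 5) × unitInterval) : G5 := ⟨raw p.1.1 p.1.2 p.2, inG_raw _ _ _⟩

theorem continuous_q : Continuous q := by
  refine Continuous.subtype_mk ?_ _
  have : ∀ ab : Fin 5 × Fin 5, Continuous fun t : unitInterval => raw ab.1 ab.2 t := by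
    intro ab
    unfold raw
    fun_prop
  rw [continuous_iff_continuousAt]
  rintro ⟨ab, t⟩
  have h1 : (fun p : (Fin 5 × Fin 5) × unitInterval => raw p.1.1 p.1.2 (p.2 : ℝ)) =ᶠ[𝓝 (ab, t)]
      fun p => raw ab.1 ab.2 (p.2 : ℝ) := by
    have h2 : {p : (Fin 5 × Fin 5) × unitInterval | p.1 = ab} ∈ 𝓝 (ab, t) := by
      have h3 : IsOpen {p : (Fin 5 × Fin 5) × unitInterval | p.1 = ab} :=
        (isOpen_discrete ({ab} : Set (Fin 5 × Fin 5))).preimage continuous_fst
      exact h3.mem_nhds rfl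
    filter_upwards [h2] with p hp
    have hp' : p.1 = ab := hp
    rw [hp']
  exact (((this ab).comp continuous_snd).continuousAt).congr h1.symm

theorem surjective_q : Function.Surjective q := by
  rintro ⟨x, hx0, hx1, a, b, hab⟩
  by_cases h : a = b
  · subst h
    have h1 : x a = 1 := by
      rw [← hx1]
      rw [Finset.sum_eq_single a]
      · intro c _ hc
        exact hab c hc hc
      · simp
    refine ⟨((a, a), 0), Subtype.ext ?_⟩
    funext c
    show raw a a (0 : ℝ) c = x c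
    by_cases hc : c = a
    · subst hc; simp [raw, h1]
    · simp [raw, hc, hab c hc hc]
  · have h1 : x a + x b = 1 := by
      rw [← hx1, ← Finset.sum_pair h]
      refine Finset.sum_subset (Finset.subset_univ _) ?_
      intro c _ hc
      simp only [Finset.mem_insert, Finset.mem_singleton, not_or] at hc
      exact hab c hc.1 hc.2
    have h2 : x b ∈ Set.Icc (0 : ℝ) 1 := ⟨hx0 b, by have := hx0 a; linarith⟩
    refine ⟨((a, b), ⟨x b, h2⟩), Subtype.ext ?_⟩
    funext c
    show raw a b (x b) c = x c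
    by_cases hc : c = a
    · subst hc
      simp [raw, h]
      linarith
    · by_cases hc' : c = b
      · subst hc'; simp [raw, hc]
      · simp [raw, hc, hc', hab c hc hc']

instance : CompactSpace G5 := surjective_q.compactSpace continuous_q

/-- the vertices -/
def vert (a : Fin 5) : G5 := q ((a, a), 0)

theorem q_zero (a b : Fin 5) : q ((a, b), 0) = vert a := by
  apply Subtype.ext
  funext c
  show raw a b (0 : ℝ) c = raw a a (0 : ℝ) c
  simp [raw]

theorem q_one (a b : Fin 5) : q ((a, b), 1) = vert b := by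
  apply Subtype.ext
  funext c
  show raw a b (1 : ℝ) c = raw b b (0 : ℝ) c
  simp [raw]

/-- the closed edges (parametrised) -/
def seg (a b : Fin 5) : Set G5 := (fun t => q ((a, b), t)) '' univ

theorem seg_connected (a b : Fin 5) : IsConnected (seg a b) := by
  refine isConnected_univ.image _ ?_
  exact (continuous_q.comp (by fun_prop)).continuousOn

theorem vert_mem_seg_left (a b : Fin 5) : vert a ∈ seg a b := ⟨0, trivial, q_zero a b⟩

theorem vert_mem_seg_right (a b : Fin 5) : vert b ∈ seg a b := ⟨1, trivial, q_one a b⟩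

theorem seg_closed (a b : Fin 5) : IsClosed (seg a b) := by
  refine (isCompact_univ.image_of_continuousOn ?_).isClosed
  exact (continuous_q.comp (by fun_prop)).continuousOn

instance : ConnectedSpace G5 := by
  have : IsPreconnected (univ : Set G5) := by
    refine isPreconnected_of_forall (vert 0) fun y _ => ?_
    obtain ⟨⟨⟨a, b⟩, t⟩, rfl⟩ := surjective_q y
    refine ⟨seg 0 a ∪ seg a b, subset_univ _, Or.inl (vert_mem_seg_left _ _),
      Or.inr ⟨t, trivial, rfl⟩, ?_⟩
    exact IsPreconnected.union (vert a) (vert_mem_seg_right _ _) (vert_mem_seg_left _ _)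
      (seg_connected _ _).isPreconnected (seg_connected _ _).isPreconnected
  have h1 : PreconnectedSpace G5 := ⟨this⟩
  exact { toPreconnectedSpace := h1, toNonempty := ⟨vert 0⟩ }

theorem isClosedMap_q : IsClosedMap q := continuous_q.isClosedMap

theorem isQuotientMap_q : IsQuotientMap q :=
  isClosedMap_q.isQuotientMap continuous_q surjective_q

instance : LocallyConnectedSpace unitInterval := by
  have : LocallyPathConnectedSpace (Set.Icc (0 : ℝ) 1) := (convex_Icc 0 1).locallyPathConnectedSpace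
  have h2 : LocallyConnectedSpace (Set.Icc (0 : ℝ) 1) := inferInstance
  exact h2

instance : LocallyConnectedSpace G5 := isQuotientMap_q.isCoinducing.locallyConnectedSpace

instance : Nontrivial G5 := by
  refine ⟨vert 0, vert 1, fun h => ?_⟩
  have h1 := congrArg (fun y : G5 => y.1 0) h
  have h2 : raw 0 0 (0 : ℝ) 0 = raw 1 1 (0 : ℝ) 0 := h1
  simp [raw] at h2

theorem q_coord (a b : Fin 5) (t : unitInterval) (c : Fin 5) :
    (q ((a, b), t)).1 c = (1 - (t : ℝ)) * (if c = a then 1 else 0) + t * (if c = b then 1 else 0) :=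
  rfl

/-- a point with nonzero coordinates `a ≠ b` lies on the edge from `b` to `a` -/
theorem eq_q (x : G5) (a b : Fin 5) (hab : a ≠ b) (ha : x.1 a ≠ 0) (hb : x.1 b ≠ 0)
    (t : unitInterval) (ht : (t : ℝ) = x.1 a) : x = q ((b, a), t) := by
  obtain ⟨⟨⟨c, d⟩, s⟩, rfl⟩ := surjective_q x
  rw [q_coord] at ha hb ht
  have key : (c = a ∧ d = b) ∨ (c = b ∧ d = a) := by
    by_cases h1 : a = c <;> by_cases h2 : a = d <;> by_cases h3 : b = c <;> by_cases h4 : b = d <;>
      simp_all
  apply Subtype.ext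
  funext e
  rw [q_coord, q_coord, ht]
  rcases key with ⟨rfl, rfl⟩ | ⟨rfl, rfl⟩
  · simp [hab]
    ring
  · simp [hab]

/-- a nondegenerate subcontinuum of the graph contains a nonempty open set -/
theorem exists_open (L : Set G5) (hL : IsClosed L) (hc : IsPreconnected L) (hn : L.Nontrivial) :
    ∃ U : Set G5, IsOpen U ∧ U.Nonempty ∧ U ⊆ L := by
  obtain ⟨y, hy, z, hz, hyz⟩ := hn
  obtain ⟨a, ha⟩ : ∃ a, y.1 a ≠ z.1 a := by
    by_contra hcon
    push Not at hcon
    exact hyz (Subtype.ext (funext hcon))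
  wlog hlt : y.1 a < z.1 a generalizing y z
  · exact this z hz y hy hyz.symm ha.symm (lt_of_le_of_ne (not_lt.1 hlt) ha.symm)
  have himg : Icc (y.1 a) (z.1 a) ⊆ (fun x : G5 => x.1 a) '' L :=
    (hc.image _ (continuous_coord a).continuousOn).ordConnected.out (mem_image_of_mem _ hy)
      (mem_image_of_mem _ hz)
  have hy0 : 0 ≤ y.1 a := y.2.1 a
  have hz1 : z.1 a ≤ 1 := by
    rw [← z.2.2.1]
    exact Finset.single_le_sum (fun i _ => z.2.1 i) (Finset.mem_univ a)
  -- the closed sets of parameters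
  let C : {b : Fin 5 // b ≠ a} → Set ℝ := fun b => {s | ∃ h : s ∈ Icc (y.1 a) (z.1 a),
    q ((b.1, a), ⟨s, ⟨hy0.trans h.1, h.2.trans hz1⟩⟩) ∈ L}
  have hCc : ∀ b, IsClosed (C b) := by
    intro b
    let g : Icc (y.1 a) (z.1 a) → G5 :=
      fun s => q ((b.1, a), ⟨s.1, ⟨hy0.trans s.2.1, s.2.2.trans hz1⟩⟩)
    have hg : Continuous g := continuous_q.comp (by fun_prop)
    have h1 : C b = Subtype.val '' (g ⁻¹' L) := by
      ext s
      constructor
      · rintro ⟨h, hs⟩
        exact ⟨⟨s, h⟩, hs, rfl⟩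
      · rintro ⟨⟨s, h⟩, hs, rfl⟩
        exact ⟨h, hs⟩
    rw [h1]
    exact isClosed_Icc.isClosedEmbedding_subtypeVal.isClosedMap _ (hL.preimage hg)
  have hcov : ∀ s ∈ Ioo (y.1 a) (z.1 a), ∃ b, s ∈ C b := by
    intro s hs
    obtain ⟨x, hx, hxs⟩ := himg ⟨hs.1.le, hs.2.le⟩
    have hs0 : 0 < s := hy0.trans_lt hs.1
    have hs1 : s < 1 := hs.2.trans_le hz1
    have hxa : x.1 a = s := hxs
    obtain ⟨b, hb, hxb⟩ : ∃ b, b ≠ a ∧ x.1 b ≠ 0 := by
      by_contra hcon
      push Not at hcon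
      have h1 : ∑ i, x.1 i = x.1 a := Finset.sum_eq_single a (fun b _ hb => hcon b hb) (by simp)
      rw [x.2.2.1] at h1
      linarith
    refine ⟨⟨b, hb⟩, ⟨hs.1.le, hs.2.le⟩, ?_⟩
    have h2 := eq_q x a b hb.symm (by rw [hxa]; exact hs0.ne') hxb
      ⟨s, ⟨hy0.trans hs.1.le, hs.2.le.trans hz1⟩⟩ hxa.symm
    rw [← h2]
    exact hx
  obtain ⟨b, hb⟩ : ∃ b, (interior (C b)).Nonempty := by
    by_contra hcon
    push Not at hcon
    have h1 : Dense (⋂ b, (C b)ᶜ) := by
      refine dense_iInter_of_isOpen (fun b => (hCc b).isOpen_compl) fun b => ?_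
      rw [← interior_eq_empty_iff_dense_compl]
      exact hcon b
    obtain ⟨s, hs, hs'⟩ := h1.inter_open_nonempty _ isOpen_Ioo (nonempty_Ioo.2 hlt)
    obtain ⟨b, hb⟩ := hcov s hs
    exact (mem_iInter.1 hs' b) hb
  have hW : (interior (C b) ∩ ({0, 1} : Set ℝ)ᶜ).Nonempty := by
    have h1 : Dense (({0, 1} : Set ℝ)ᶜ) :=
      (Set.toFinite ({0, 1} : Set ℝ)).countable.dense_compl ℝ
    exact h1.inter_open_nonempty _ isOpen_interior hb
  refine ⟨{x : G5 | x.1 a ∈ interior (C b) ∧ 0 < x.1 b.1 ∧ 0 < x.1 a}, ?_, ?_, ?_⟩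
  · exact (isOpen_interior.preimage (continuous_coord a)).inter
      ((isOpen_Ioi.preimage (continuous_coord b.1)).inter
        (isOpen_Ioi.preimage (continuous_coord a)))
  · obtain ⟨s, hs, hs01⟩ := hW
    obtain ⟨hsI, -⟩ := interior_subset hs
    simp only [mem_compl_iff, mem_insert_iff, mem_singleton_iff, not_or] at hs01
    have hs0 : 0 < s := lt_of_le_of_ne (hy0.trans hsI.1) (Ne.symm hs01.1)
    have hs1 : s < 1 := lt_of_le_of_ne (hsI.2.trans hz1) hs01.2
    refine ⟨q ((b.1, a), ⟨s, ⟨hs0.le, hs1.le⟩⟩), ?_⟩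
    have hne : b.1 ≠ a := b.2
    simp only [mem_ofPred_eq, q_coord]
    simp [hne, hne.symm, hs0, hs1, hs]
  · rintro x ⟨hx1, hx2, hx3⟩
    obtain ⟨hsI, hmem⟩ := interior_subset hx1
    have h2 := eq_q x a b.1 b.2.symm hx3.ne' hx2.ne'
      ⟨x.1 a, ⟨hy0.trans hsI.1, hsI.2.trans hz1⟩⟩ rfl
    rw [h2]
    exact hmem

/-- preimages of closed connected sets under closed maps with connected fibres -/
theorem preimage_preconnected {X Y : Type*} [TopologicalSpace X] [TopologicalSpace Y] (f : X → Y)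
    (hf : Continuous f) (hcl : IsClosedMap f) (hs : Function.Surjective f)
    (hfib : ∀ y, IsPreconnected (f ⁻¹' {y}))
    (E : Set Y) (hE : IsPreconnected E) (hEc : IsClosed E) : IsPreconnected (f ⁻¹' E) := by
  rw [isPreconnected_closed_iff]
  rintro A B hA hB hsub ⟨a, haE, haA⟩ ⟨b, hbE, hbB⟩
  have h1 : IsClosed (f '' (A ∩ f ⁻¹' E)) := hcl _ (hA.inter (hEc.preimage hf))
  have h2 : IsClosed (f '' (B ∩ f ⁻¹' E)) := hcl _ (hB.inter (hEc.preimage hf))
  have h3 : E ⊆ f '' (A ∩ f ⁻¹' E) ∪ f '' (B ∩ f ⁻¹' E) := by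
    intro y hy
    obtain ⟨x, rfl⟩ := hs y
    rcases hsub hy with h | h
    · exact Or.inl ⟨x, ⟨h, hy⟩, rfl⟩
    · exact Or.inr ⟨x, ⟨h, hy⟩, rfl⟩
  obtain ⟨y, hyE, ⟨x1, ⟨hx1A, hx1E⟩, hx1⟩, ⟨x2, ⟨hx2B, hx2E⟩, hx2⟩⟩ :=
    (isPreconnected_closed_iff.1 hE) _ _ h1 h2 h3 ⟨f a, haE, a, ⟨haA, haE⟩, rfl⟩
      ⟨f b, hbE, b, ⟨hbB, hbE⟩, rfl⟩
  have hsub' : f ⁻¹' {y} ⊆ A ∪ B := fun x hx => hsub (by
    have : f x = y := hx
    show f x ∈ E
    rw [this]; exact hyE)
  obtain ⟨x, hx, hxA, hxB⟩ := (isPreconnected_closed_iff.1 (hfib y)) _ _ hA hB hsub'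
    ⟨x1, hx1, hx1A⟩ ⟨x2, hx2, hx2B⟩
  refine ⟨x, ?_, hxA, hxB⟩
  have : f x = y := hx
  show f x ∈ E
  rw [this]; exact hyE

theorem thickening_isPreconnected (T : Set ℂ) (hT : IsPreconnected T) (δ : ℝ) (hδ : 0 < δ)
    (hne : T.Nonempty) : IsPreconnected (Metric.thickening δ T) := by
  obtain ⟨x0, hx0⟩ := hne
  refine isPreconnected_of_forall x0 fun y hy => ?_
  obtain ⟨x, hx, hxy⟩ := Metric.mem_thickening_iff.1 hy
  refine ⟨T ∪ Metric.ball x δ, ?_, Or.inl hx0, Or.inr hxy, ?_⟩
  · rintro z (hz | hz)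
    · exact Metric.self_subset_thickening hδ _ hz
    · exact Metric.mem_thickening_iff.2 ⟨x, hx, hz⟩
  · exact IsPreconnected.union x hx (Metric.mem_ball_self hδ) hT
      (convex_ball x δ).isPreconnected

/-- `K₅` is not a monotone image of a plane compactum -/
theorem no_monotone (S : Set (EuclideanSpace ℝ (Fin 2))) (f : ↥S → G5) (hS : IsCompact S)
    (hf : Continuous f) (hs : Function.Surjective f)
    (hfib : ∀ y, IsConnected (Subtype.val '' (f ⁻¹' {y}))) : False := by
  have : CompactSpace S := isCompact_iff_compactSpace.1 hS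
  have hcl : IsClosedMap f := hf.isClosedMap
  have hfib' : ∀ y, IsPreconnected (f ⁻¹' {y}) := fun y =>
    (IsInducing.subtypeVal.isPreconnected_image).1 (hfib y).isPreconnected
  let φ : EuclideanSpace ℝ (Fin 2) ≃ₗᵢ[ℝ] ℂ := Complex.orthonormalBasisOneI.repr.symm
  let ψ : S → ℂ := fun x => φ x.1
  have hψ : Continuous ψ := φ.continuous.comp continuous_subtype_val
  have hψi : Function.Injective ψ := φ.injective.comp Subtype.val_injective
  choose x hx using fun a => hs (vert a)
  let T : Fin 5 → Fin 5 → Set ℂ := fun a b => ψ '' (f ⁻¹' (seg a b))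
  have hTc : ∀ a b, IsCompact (T a b) := fun a b =>
    (((seg_closed a b).preimage hf).isCompact).image hψ
  have hTp : ∀ a b, IsPreconnected (T a b) := fun a b =>
    (preimage_preconnected f hf hcl hs hfib' _ (seg_connected a b).isPreconnected
      (seg_closed a b)).image _ hψ.continuousOn
  have hl : ∀ a b, ψ (x a) ∈ T a b := fun a b => ⟨x a, by
    show f (x a) ∈ seg a b
    rw [hx]; exact vert_mem_seg_left a b, rfl⟩
  have hr : ∀ a b, ψ (x b) ∈ T a b := fun a b => ⟨x b, by
    show f (x b) ∈ seg a b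
    rw [hx]; exact vert_mem_seg_right a b, rfl⟩
  have hdis : ∀ a b c d : Fin 5, a ≠ c → a ≠ d → b ≠ c → b ≠ d → Disjoint (T a b) (T c d) := by
    intro a b c d h1 h2 h3 h4
    rw [Set.disjoint_left]
    rintro _ ⟨u, hu, rfl⟩ ⟨v, hv, huv⟩
    have huv' : v = u := hψi huv
    subst huv'
    obtain ⟨t, -, ht⟩ := hu
    obtain ⟨t', -, ht'⟩ := hv
    have e1 : ∀ e, (f v).1 e = (1 - (t : ℝ)) * (if e = a then 1 else 0) +
        t * (if e = b then 1 else 0) := fun e => by rw [← ht]; rfl
    have e2 : ∀ e, (f v).1 e = (1 - (t' : ℝ)) * (if e = c then 1 else 0) +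
        t' * (if e = d then 1 else 0) := fun e => by rw [← ht']; rfl
    have k1 := (e1 a).symm.trans (e2 a)
    have k2 := (e1 b).symm.trans (e2 b)
    simp only [if_neg h1, if_neg h2, if_neg h3, if_neg h4, if_true] at k1 k2
    by_cases hab : a = b
    · subst hab
      simp at k1
    · rw [if_neg hab] at k1
      rw [if_neg (Ne.symm hab)] at k2
      linarith
  obtain ⟨δ, hδ, hδd⟩ : ∃ δ : ℝ, 0 < δ ∧ ∀ a b c d : Fin 5, a ≠ c → a ≠ d → b ≠ c → b ≠ d →
      Disjoint (Metric.thickening δ (T a b)) (Metric.thickening δ (T c d)) := by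
    have h1 : ∀ a b c d : Fin 5, ∃ δ : ℝ, 0 < δ ∧ (a ≠ c → a ≠ d → b ≠ c → b ≠ d →
        Disjoint (Metric.thickening δ (T a b)) (Metric.thickening δ (T c d))) := by
      intro a b c d
      by_cases h : a ≠ c ∧ a ≠ d ∧ b ≠ c ∧ b ≠ d
      · obtain ⟨δ, hδ, h2⟩ := (hdis a b c d h.1 h.2.1 h.2.2.1 h.2.2.2).exists_thickenings (hTc a b)
          (hTc c d).isClosed
        exact ⟨δ, hδ, fun _ _ _ _ => h2⟩
      · exact ⟨1, one_pos, fun h1 h2 h3 h4 => absurd ⟨h1, h2, h3, h4⟩ h⟩
    choose δ hδ h2 using h1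
    let δ' : (Fin 5 × Fin 5) × (Fin 5 × Fin 5) → ℝ := fun p => δ p.1.1 p.1.2 p.2.1 p.2.2
    obtain ⟨m, hm⟩ : ∃ m, ∀ p, δ' m ≤ δ' p := by
      obtain ⟨m, -, hm⟩ := Finset.exists_min_image Finset.univ δ' Finset.univ_nonempty
      exact ⟨m, fun p => hm p (Finset.mem_univ _)⟩
    refine ⟨δ' m, hδ _ _ _ _, fun a b c d k1 k2 k3 k4 => ?_⟩
    exact (h2 a b c d k1 k2 k3 k4).mono (Metric.thickening_mono (hm ((a, b), (c, d))) _)
      (Metric.thickening_mono (hm ((a, b), (c, d))) _)
  refine Pool.Agent.Helper805.CHS.VK.k5_joined (fun a => ψ (x a))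
    (fun a b => Metric.thickening δ (T a b)) ?_ ?_
  · intro a b _
    have h1 : IsConnected (Metric.thickening δ (T a b)) :=
      ⟨⟨_, Metric.self_subset_thickening hδ _ (hl a b)⟩,
        thickening_isPreconnected _ (hTp a b) δ hδ ⟨_, hl a b⟩⟩
    have h2 : IsPathConnected (Metric.thickening δ (T a b)) :=
      (Metric.isOpen_thickening.isConnected_iff_isPathConnected).1 h1
    exact h2.joinedIn _ (Metric.self_subset_thickening hδ _ (hl a b)) _
      (Metric.self_subset_thickening hδ _ (hr a b))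
  · intro a b c d _ _ h1 h2 h3 h4
    exact hδd a b c d h1 h2 h3 h4

end Pool.Agent.H31DO
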